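import Pool.Agent.H59.L.S8.W558.S2.Stms2
import Pool.Agent.H59.L.S8.W498.Tor.Tor

set_option autoImplicit false
set_option linter.unusedVariables false
set_option linter.unusedSectionVars false

universe u

open scoped IntermediateField.algebraAdjoinAdjoin

open Polynomial Pool.Agent.W558 Pool.Agent.W498.Tor

namespace Pool.Agent.W417.Tor

section base

variable {k E K : Type u} [Field k] [Field E] [Field K] [Algebra k E] [Algebra k K]
  [Algebra E K] [IsScalarTower k E K]

/-- The derivations. -/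
def Dz (k E : Type u) {K : Type u} [Field k] [Field E] [Field K] [Algebra k E] [Algebra k K]
    [Algebra E K] {r : ℕ} (z : Fin r → K) : Set (Derivation k K K) :=
  {D : Derivation k K K | (∀ x : E, D (algebraMap E K x) = 0) ∧
      ∀ j, ∃ χ : k, D (z j) = χ • z j}

lemma em_lau {r : ℕ} (z : Fin r → K) (x : E) : algebraMap E K x ∈ Lau (k := k) (E := E) z :=
  Algebra.subset_adjoin (Or.inl (Or.inl ⟨x, rfl⟩))

lemma z_lau {r : ℕ} (z : Fin r → K) (j : Fin r) : z j ∈ Lau (k := k) (E := E) z :=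
  Algebra.subset_adjoin (Or.inl (Or.inr ⟨j, rfl⟩))

lemma zi_lau {r : ℕ} (z : Fin r → K) (j : Fin r) : (z j)⁻¹ ∈ Lau (k := k) (E := E) z :=
  Algebra.subset_adjoin (Or.inr ⟨j, rfl⟩)

lemma lau_le {r : ℕ} {z : Fin r → K} {Q : Subalgebra k K} (h1 : ∀ x : E, algebraMap E K x ∈ Q)
    (h2 : ∀ j, z j ∈ Q) (h3 : ∀ j, (z j)⁻¹ ∈ Q) : Lau (k := k) (E := E) z ≤ Q := by
  apply Algebra.adjoin_le
  rintro _ ((⟨x, rfl⟩ | ⟨j, rfl⟩) | ⟨j, rfl⟩)
  · exact h1 x
  · exact h2 j
  · exact h3 j

lemma lau_succ {r : ℕ} (z : Fin (r + 1) → K) : Lau (k := k) (E := E) z =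
    adj (adj (Lau (k := k) (E := E) (z ∘ Fin.castSucc)) (z (Fin.last r))) (z (Fin.last r))⁻¹ := by
  apply le_antisymm
  · apply lau_le
    · intro x
      exact le_adj _ _ (le_adj _ _ (em_lau _ x))
    · intro j
      refine Fin.lastCases ?_ ?_ j
      · exact le_adj _ _ (self_mem_adj _ _)
      · intro i
        exact le_adj _ _ (le_adj _ _ (z_lau (z ∘ Fin.castSucc) i))
    · intro j
      refine Fin.lastCases ?_ ?_ j
      · exact self_mem_adj _ _
      · intro i
        exact le_adj _ _ (le_adj _ _ (zi_lau (z ∘ Fin.castSucc) i))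
  · refine adj_le (adj_le (lau_le ?_ ?_ ?_) (z_lau z _)) (zi_lau z _)
    · exact em_lau z
    · exact fun j => z_lau z _
    · exact fun j => zi_lau z _

lemma der_inv {D : Derivation k K K} {z : K} (hz : z ≠ 0) {χ : k} (h : D z = χ • z) :
    D z⁻¹ = (-χ) • z⁻¹ := by
  rw [Derivation.leibniz_inv, h]
  simp only [Algebra.smul_def, map_neg, Algebra.algebraMap_self, RingHom.id_apply]
  field_simp

lemma der_lau {r : ℕ} {z : Fin r → K} (hz : ∀ j, z j ≠ 0) {D : Derivation k K K}
    (hD : D ∈ Dz k E z) : ∀ q ∈ Lau (k := k) (E := E) z, D q ∈ Lau (k := k) (E := E) z := by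
  intro q hq
  induction hq using Algebra.adjoin_induction with
  | mem x hx =>
    rcases hx with (⟨x, rfl⟩ | ⟨j, rfl⟩) | ⟨j, rfl⟩
    · rw [hD.1]
      exact Subalgebra.zero_mem _
    · obtain ⟨χ, h⟩ := hD.2 j
      rw [h]
      exact Subalgebra.smul_mem _ (z_lau z j) _
    · obtain ⟨χ, h⟩ := hD.2 j
      change D (z j)⁻¹ ∈ _
      rw [der_inv (hz j) h]
      exact Subalgebra.smul_mem _ (zi_lau z j) _
  | algebraMap c =>
    rw [Derivation.map_algebraMap]
    exact Subalgebra.zero_mem _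
  | add x y hx hy h1 h2 =>
    rw [map_add]
    exact Subalgebra.add_mem _ h1 h2
  | mul x y hx hy h1 h2 =>
    rw [Derivation.leibniz]
    exact Subalgebra.add_mem _ (Subalgebra.mul_mem _ hx h2) (Subalgebra.mul_mem _ hy h1)

end base

section step

variable {k K : Type u} [Field k] [Field K] [Algebra k K] {T I : Type}

lemma der_zz {D : Derivation k K K} {z : K} (hz : z ≠ 0) {χ : k} (h : D z = χ • z) (b : Bool) :
    ∃ c : k, D (zz z b) = c • zz z b := by
  cases b
  · exact ⟨_, der_inv hz h⟩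
  · exact ⟨_, h⟩

lemma ld_prod {M : LM (⊥ : Subalgebra k K) ⊤ T I} {z : K} (hz : z ≠ 0)
    (h : ∀ t, Tr (M.A t) z) {D : Derivation k K K} (hD : LD M D) {χ : k} (hDz : D z = χ • z) :
    LD (prodLM M hz h) D where
  dA := by
    rintro ⟨t, b⟩ f hf
    obtain ⟨c, hc⟩ := der_zz hz hDz b
    have key : ∀ f ∈ adj (M.A t) (zz z b), f ∈ adj (M.A t) (zz z b) ∧
        D f ∈ adj (M.A t) (zz z b) := by
      refine adj_induction (M.A t) (zz z b) ?_ ?_ ?_
      · intro a ha
        exact ⟨le_adj _ _ ha, le_adj _ _ (hD.dA t a ha)⟩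
      · rintro x y ⟨h1, h2⟩ ⟨h3, h4⟩
        refine ⟨Subalgebra.add_mem _ h1 h3, ?_⟩
        rw [map_add]
        exact Subalgebra.add_mem _ h2 h4
      · rintro x ⟨h1, h2⟩
        refine ⟨Subalgebra.mul_mem _ h1 (self_mem_adj _ _), ?_⟩
        rw [Derivation.leibniz, hc]
        exact Subalgebra.add_mem _
          (Subalgebra.mul_mem _ h1 (Subalgebra.smul_mem _ (self_mem_adj _ _) _))
          (Subalgebra.mul_mem _ (self_mem_adj _ _) h2)
    exact (key f hf).2
  dx := by
    rintro ⟨t, b⟩ (i | c)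
    · exact le_adj _ _ (hD.dx t i)
    · change D (if b = c then zz z b else 1) / (if b = c then zz z b else 1) ∈
        adj (M.A t) (zz z b)
      split_ifs
      · obtain ⟨c, hc⟩ := der_zz hz hDz b
        have h0 := zz_ne hz b
        have e : D (zz z b) / zz z b = algebraMap k K c := by
          rw [hc, Algebra.smul_def]
          field_simp
        rw [e]
        exact Subalgebra.algebraMap_mem _ _
      · rw [Derivation.map_one_eq_zero, zero_div]
        exact Subalgebra.zero_mem _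

lemma cof_ind {C B : Subalgebra k K} {P : K} (hP : P ∈ C) (hB : B ≤ C) {q q' : K}
    (h : ∃ c ∈ B, ∃ N : ℕ, c ≠ 0 ∧ c * P ^ N * q ∈ C)
    (h' : ∃ c ∈ B, ∃ N : ℕ, c ≠ 0 ∧ c * P ^ N * q' ∈ C) :
    ∃ c ∈ B, ∃ N : ℕ, c ≠ 0 ∧ c * P ^ N * (q + q') ∈ C := by
  obtain ⟨c, hc, N, h0, h1⟩ := h
  obtain ⟨c', hc', N', h0', h1'⟩ := h'
  refine ⟨c * c', B.mul_mem hc hc', N + N', mul_ne_zero h0 h0', ?_⟩
  have e : c * c' * P ^ (N + N') * (q + q') = (c * P ^ N * q) * (c' * P ^ N') +
      (c' * P ^ N' * q') * (c * P ^ N) := by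
    rw [pow_add]; ring
  rw [e]
  exact C.add_mem (C.mul_mem h1 (C.mul_mem (hB hc') (C.pow_mem hP _)))
    (C.mul_mem h1' (C.mul_mem (hB hc) (C.pow_mem hP _)))

lemma cof_mul {C B : Subalgebra k K} {P v : K} (hv : P * v ∈ C) {q : K}
    (h : ∃ c ∈ B, ∃ N : ℕ, c ≠ 0 ∧ c * P ^ N * q ∈ C) :
    ∃ c ∈ B, ∃ N : ℕ, c ≠ 0 ∧ c * P ^ N * (q * v) ∈ C := by
  obtain ⟨c, hc, N, h0, h1⟩ := h
  refine ⟨c, hc, N + 1, h0, ?_⟩
  have e : c * P ^ (N + 1) * (q * v) = (c * P ^ N * q) * (P * v) := by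
    rw [pow_succ]; ring
  rw [e]
  exact C.mul_mem h1 hv

lemma prod_xx [Fintype I] (x : I → K) (z : K) (b : Bool) :
    ∏ i, xx x z b i = (∏ i, x i) * zz z b := by
  rw [Fintype.prod_sum_type]
  congr 1
  change ∏ c : Bool, (if b = c then zz z b else 1) = _
  rw [Fintype.prod_bool]
  cases b <;> simp

theorem bas_prod [Fintype I] {M : LM (⊥ : Subalgebra k K) ⊤ T I} {z : K} (hz : z ≠ 0)
    (h : ∀ t, Tr (M.A t) z) {Q : Subalgebra k K} {Ds Ds' : Set (Derivation k K K)}
    {B : T → Subalgebra k K} {b : T → K} (hB : Bas Q Ds M B b) (hDs : Ds' ⊆ Ds) :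
    Bas (adj (adj Q z) z⁻¹) Ds' (prodLM M hz h) (fun p => B p.1) (fun p => b p.1) where
  A := by
    rintro ⟨t, b⟩
    refine adj_le ?_ ?_
    · exact (hB.A t).trans ((le_adj _ _).trans (le_adj _ _))
    · cases b
      · exact self_mem_adj _ _
      · exact le_adj _ _ (self_mem_adj _ _)
  x := by
    rintro ⟨t, b⟩ (i | c)
    · exact le_adj _ _ (le_adj _ _ (hB.x t i))
    · change (if b = c then zz z b else 1)⁻¹ ∈ adj (adj Q z) z⁻¹
      split_ifs
      · cases b
        · change z⁻¹⁻¹ ∈ _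
          rw [inv_inv]
          exact le_adj _ _ (self_mem_adj _ _)
        · exact self_mem_adj _ _
      · rw [inv_one]
        exact Subalgebra.one_mem _
  BA := fun p => (hB.BA p.1).trans (le_adj _ _)
  ft := fun p => hB.ft p.1
  bB := fun p => hB.bB p.1
  b0 := fun p => hB.b0 p.1
  DB := fun D hD p => hB.DB D (hDs hD) p.1
  BQ := fun p c hc h0 => le_adj _ _ (le_adj _ _ (hB.BQ p.1 c hc h0))
  cof := by
    rintro ⟨t, b⟩ q hq
    let P : K := ∏ i, (prodLM M hz h).x (t, b) i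
    let C : Subalgebra k K := adj (M.A t) (zz z b)
    have hP : P = (∏ i, M.x t i) * zz z b := prod_xx (M.x t) z b
    have hx : (∏ i, M.x t i) ∈ C := le_adj _ _ ((M.A t).prod_mem fun i _ => M.xA t i)
    have hzC : zz z b ∈ C := self_mem_adj _ _
    have hPC : P ∈ C := by
      rw [hP]
      exact C.mul_mem hx hzC
    have hBC : B t ≤ C := (hB.BA t).trans (le_adj _ _)
    have hv : P * z ∈ C := by
      rw [hP, mul_assoc]
      refine C.mul_mem hx ?_
      cases b
      · change z⁻¹ * z ∈ C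
        rw [inv_mul_cancel₀ hz]
        exact C.one_mem
      · exact C.mul_mem hzC hzC
    have hv' : P * z⁻¹ ∈ C := by
      rw [hP, mul_assoc]
      refine C.mul_mem hx ?_
      cases b
      · exact C.mul_mem hzC hzC
      · change z * z⁻¹ ∈ C
        rw [mul_inv_cancel₀ hz]
        exact C.one_mem
    change ∃ c ∈ B t, ∃ N : ℕ, c ≠ 0 ∧ c * P ^ N * q ∈ C
    refine adj_induction (adj Q z) z⁻¹ (p := fun q => ∃ c ∈ B t, ∃ N : ℕ, c ≠ 0 ∧
      c * P ^ N * q ∈ C) ?_ (fun _ _ h1 h2 => cof_ind hPC hBC h1 h2)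
      (fun _ h1 => cof_mul hv' h1) q hq
    refine adj_induction Q z ?_ (fun _ _ h1 h2 => cof_ind hPC hBC h1 h2)
      (fun _ h1 => cof_mul hv h1)
    intro a ha
    obtain ⟨c, hc, N, h0, h1⟩ := hB.cof t a ha
    refine ⟨c, hc, N, h0, ?_⟩
    have e : c * P ^ N * a = (c * (∏ i, M.x t i) ^ N * a) * zz z b ^ N := by
      rw [hP, mul_pow]; ring
    rw [e]
    exact C.mul_mem (le_adj _ _ h1) (C.pow_mem hzC _)
  bx := by
    rintro ⟨t, c⟩
    obtain ⟨N, hN⟩ := hB.bx t
    refine ⟨N, ?_⟩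
    change (∏ i, xx (M.x t) z c i) ^ N / b t ∈ adj (M.A t) (zz z c)
    have e : (∏ i, xx (M.x t) z c i) ^ N / b t = ((∏ i, M.x t i) ^ N / b t) * zz z c ^ N := by
      rw [prod_xx, mul_pow]; ring
    rw [e]
    exact Subalgebra.mul_mem _ (le_adj _ _ hN) (Subalgebra.pow_mem _ (self_mem_adj _ _) _)
  sub := by
    rintro ⟨t, c⟩ κ _ _ φ φ0 hφ hφb D0
    let φA : M.A t →ₐ[k] κ := φ.comp (Subalgebra.inclusion (le_adj (M.A t) (zz z c)))
    obtain ⟨D, hD1, hD2⟩ := hB.sub t κ φA φ0 (fun a ha => hφ a ha) hφb D0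
    obtain ⟨E, hE1, hE2⟩ := ext_pe ((h t).zz hz c) φ φA (fun a => rfl) D 0
    refine ⟨E, ?_, ?_⟩
    · intro a ha
      exact (hE1 a (hB.BA t ha) _).trans (hD1 a ha)
    · rintro (i | c') hi
      · exact (hE1 (M.x t i) (M.xA t i) _).trans (hD2 i hi)
      · by_cases hc : c = c'
        · have e1 : (prodLM M hz h).x (t, c) (Sum.inr c') = zz z c := if_pos hc
          have hm := (prodLM M hz h).xA (t, c) (Sum.inr c')
          have h5 : (⟨(prodLM M hz h).x (t, c) (Sum.inr c'), hm⟩ : adj (M.A t) (zz z c)) =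
              ⟨zz z c, self_mem_adj _ _⟩ := Subtype.ext e1
          exact (congrArg E.D h5).trans (hE2 _)
        · have e1 : (prodLM M hz h).x (t, c) (Sum.inr c') = 1 := if_neg hc
          have hm := (prodLM M hz h).xA (t, c) (Sum.inr c')
          have h5 : (⟨(prodLM M hz h).x (t, c) (Sum.inr c'), hm⟩ : adj (M.A t) (zz z c)) =
              1 := Subtype.ext e1
          exact (congrArg E.D h5).trans E.D_one

end step

section main

variable {k E K : Type u} [Field k] [Field E] [Field K] [Algebra k E] [Algebra k K]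
  [Algebra E K] [IsScalarTower k E K] {T I : Type}

theorem bas_map [Fintype I] (M : LM (⊥ : Subalgebra k E) ⊤ T I)
    (fr : ∀ t (x : E), ∃ a ∈ M.A t, ∃ b ∈ M.A t, b ≠ 0 ∧ x = a * b⁻¹) (z : Fin 0 → K) :
    Bas (Lau (k := k) (E := E) z) (Dz k E z) (mapLM (K := K) M)
      (fun t => (M.A t).map (em k E K)) (fun t => em k E K (∏ i, M.x t i)) where
  A := by
    rintro t _ ⟨a, ha, rfl⟩
    exact em_lau z a
  x := by
    intro t i
    change (em k E K (M.x t i))⁻¹ ∈ _
    rw [← map_inv₀]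
    exact em_lau z _
  BA := fun t => le_rfl
  ft := fun t => by
    have h1 : Algebra.Smooth k ((M.A t).map (em k E K)) := (mapLM (K := K) M).sm t
    exact Algebra.FiniteType.of_finitePresentation
  bB := fun t => ⟨_, (M.A t).prod_mem fun i _ => M.xA t i, rfl⟩
  b0 := fun t => by
    rw [map_ne_zero_iff _ em_inj]
    exact Finset.prod_ne_zero_iff.2 fun i _ => M.x0 t i
  DB := by
    rintro D hD t _ ⟨a, ha, rfl⟩
    exact hD.1 a
  BQ := by
    rintro t _ ⟨a, ha, rfl⟩ h0
    change (em k E K a)⁻¹ ∈ _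
    rw [← map_inv₀]
    exact em_lau z _
  cof := by
    intro t q hq
    have h1 : Lau (k := k) (E := E) z ≤ (em k E K).range :=
      lau_le (fun x => ⟨x, rfl⟩) (fun j => j.elim0) (fun j => j.elim0)
    obtain ⟨e, rfl⟩ := h1 hq
    obtain ⟨a, ha, b, hb, hb0, he⟩ := fr t e
    refine ⟨em k E K b, ⟨b, hb, rfl⟩, 0, (map_ne_zero_iff _ em_inj).2 hb0, ⟨a, ha, ?_⟩⟩
    rw [pow_zero, mul_one]
    change em k E K a = em k E K b * em k E K e
    rw [← map_mul, he]
    congr 1
    field_simp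
  bx := by
    intro t
    refine ⟨1, ?_⟩
    have h0 : em k E K (∏ i, M.x t i) ≠ 0 := by
      rw [map_ne_zero_iff _ em_inj]
      exact Finset.prod_ne_zero_iff.2 fun i _ => M.x0 t i
    have e : (∏ i, (mapLM (K := K) M).x t i) ^ 1 / em k E K (∏ i, M.x t i) = 1 := by
      rw [pow_one, map_prod]
      rw [map_prod] at h0
      exact div_self h0
    rw [e]
    exact Subalgebra.one_mem _
  sub := by
    intro t κ _ _ φ φ0 hφ hφb D0
    refine ⟨D0.cast (fun a => (hφ a.1 a.2).symm), fun c hc => rfl, ?_⟩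
    intro i hi
    exfalso
    apply hφb
    have hm : ∀ j, em k E K (M.x t j) ∈ (M.A t).map (em k E K) := fun j => ⟨_, M.xA t j, rfl⟩
    have hb : em k E K (∏ i, M.x t i) ∈ (M.A t).map (em k E K) :=
      ⟨_, (M.A t).prod_mem fun i _ => M.xA t i, rfl⟩
    have e : (⟨em k E K (∏ i, M.x t i), hb⟩ : (M.A t).map (em k E K)) =
        ∏ j, ⟨em k E K (M.x t j), hm j⟩ := by
      apply Subtype.ext
      change em k E K (∏ i, M.x t i) = ((M.A t).map (em k E K)).val
        (∏ j, ⟨em k E K (M.x t j), hm j⟩)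
      rw [map_prod, map_prod]
      rfl
    refine (congrArg φ0 e).trans ?_
    rw [map_prod]
    refine Finset.prod_eq_zero (Finset.mem_univ i) ?_
    exact (hφ _ (hm i)).symm.trans hi

theorem main_aux2 {G : Type} [Finite T] [Fintype I]
    (M : LM (⊥ : Subalgebra k E) ⊤ T I) (h : G → E) (Γ : G → I → ℤ) (hF : Fn M h Γ)
    (fr : ∀ t (x : E), ∃ a ∈ M.A t, ∃ b ∈ M.A t, b ≠ 0 ∧ x = a * b⁻¹) :
    ∀ (r : ℕ) (z : Fin r → K), AlgebraicIndependent E z →
    ∃ (T' I' : Type) (_ : Finite T') (_ : Fintype I') (M' : LM (⊥ : Subalgebra k K) ⊤ T' I')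
      (B : T' → Subalgebra k K) (b : T' → K),
      (∀ b, ∃ γ, F1 M' (algebraMap E K (h b)) γ) ∧ (∀ i, ∃ γ, F1 M' (z i) γ) ∧
      (∀ D ∈ Dz k E z, LD M' D) ∧ Bas (Lau (k := k) (E := E) z) (Dz k E z) M' B b := by
  intro r
  induction r with
  | zero =>
    intro z hz
    refine ⟨T, I, inferInstance, inferInstance, mapLM M, _, _, ?_, fun i => i.elim0, ?_,
      bas_map M fr z⟩
    · intro b
      exact ⟨Γ b, f1_map (fun t => hF b t)⟩
    · intro D hD
      refine ⟨?_, ?_⟩
      · rintro t _ ⟨f, hf, rfl⟩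
        have : D (em k E K f) = 0 := hD.1 f
        change D (em k E K f) ∈ _
        rw [this]
        exact Subalgebra.zero_mem _
      · intro t i
        have : D (em k E K (M.x t i)) = 0 := hD.1 _
        change D (em k E K (M.x t i)) / _ ∈ _
        rw [this, zero_div]
        exact Subalgebra.zero_mem _
  | succ r ih =>
    intro z hz
    have hz' : AlgebraicIndependent E (z ∘ Fin.castSucc) :=
      hz.comp _ (Fin.castSucc_injective r)
    obtain ⟨T', I', _, _, M', B, b, h2, h3, h4, hB⟩ := ih (z ∘ Fin.castSucc) hz'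
    let S : Set K := Set.range (z ∘ Fin.castSucc)
    have hS : S = z '' (Set.range Fin.castSucc) := Set.range_comp _ _
    have hL : ∀ f ∈ Lau (k := k) (E := E) (z ∘ Fin.castSucc), f ∈ IntermediateField.adjoin E S := by
      intro f hf
      induction hf using Algebra.adjoin_induction with
      | mem x hx =>
        rcases hx with (⟨x, rfl⟩ | ⟨j, rfl⟩) | ⟨j, rfl⟩
        · exact IntermediateField.algebraMap_mem _ x
        · exact IntermediateField.subset_adjoin _ _ ⟨j, rfl⟩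
        · exact inv_mem (IntermediateField.subset_adjoin _ _ ⟨j, rfl⟩)
      | algebraMap c =>
        rw [IsScalarTower.algebraMap_apply k E K]
        exact IntermediateField.algebraMap_mem _ _
      | add x y hx hy h1 h2 => exact add_mem h1 h2
      | mul x y hx hy h1 h2 => exact mul_mem h1 h2
    have htr : Transcendental (Algebra.adjoin E S) (z (Fin.last r)) := by
      have h4 : Fin.last r ∉ Set.range (Fin.castSucc : Fin r → Fin (r + 1)) := by
        rintro ⟨i, hi⟩
        exact (Fin.castSucc_lt_last i).ne hi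
      have h5 := hz.transcendental_adjoin h4
      rw [hS]
      exact h5
    have htr' : Transcendental (IntermediateField.adjoin E S) (z (Fin.last r)) := by
      intro h4
      exact htr ((IsFractionRing.isAlgebraic_iff (Algebra.adjoin E S)
        (IntermediateField.adjoin E S) K).2 h4)
    have hz0 : z (Fin.last r) ≠ 0 := by
      intro h0
      apply htr
      rw [h0]
      exact isAlgebraic_zero
    have hTr : ∀ t, Tr (M'.A t) (z (Fin.last r)) := by
      intro t P hP
      let j : M'.A t →+* IntermediateField.adjoin E S :=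
        { toFun := fun a => ⟨a, hL a (hB.A t a.2)⟩
          map_one' := rfl
          map_mul' := fun a b => rfl
          map_zero' := rfl
          map_add' := fun a b => rfl }
      have hj : Function.Injective j := fun a b hab =>
        Subtype.ext (congrArg (fun x : IntermediateField.adjoin E S => (x : K)) hab)
      have h4 : aeval (z (Fin.last r)) (P.map j) = 0 := by
        rw [aeval_def, eval₂_map]
        exact hP
      have h5 := transcendental_iff.1 htr' _ h4
      exact (Polynomial.map_eq_zero_iff hj).1 h5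
    have hDs : Dz k E z ⊆ Dz k E (z ∘ Fin.castSucc) := fun D hD => ⟨hD.1, fun j => hD.2 _⟩
    refine ⟨T' × Bool, I' ⊕ Bool, inferInstance, inferInstance, prodLM M' hz0 hTr,
      fun p => B p.1, fun p => b p.1, ?_, ?_, ?_, ?_⟩
    · intro b
      obtain ⟨γ, hγ⟩ := h2 b
      exact ⟨_, f1_prod M' hz0 hTr hγ⟩
    · intro i
      refine Fin.lastCases ?_ ?_ i
      · exact ⟨_, f1_self M' hz0 hTr⟩
      · intro i
        obtain ⟨γ, hγ⟩ := h3 i
        exact ⟨_, f1_prod M' hz0 hTr hγ⟩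
    · intro D hD
      obtain ⟨χ, hχ⟩ := hD.2 (Fin.last r)
      exact ld_prod hz0 hTr (h4 D (hDs hD)) hχ
    · rw [lau_succ z]
      exact bas_prod hz0 hTr hB hDs

end main

theorem main : Pool.Agent.W558.S2_base.{u} := by
  intro k E K _ _ _ _ _ _ _ T I G _ _ M h Γ hF fr r z hz
  have hz0 : ∀ j, z j ≠ 0 := fun j => hz.ne_zero j
  obtain ⟨T', I', i1, i2, M', B, b, h2, h3, h4, hB⟩ := main_aux2 M h Γ hF fr r z hz
  choose γ hγ using h2
  choose δ hδ using h3
  have hh : ∀ b, h b ≠ 0 := by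
    intro b
    have hT : Nonempty T := nonempty_T M
    obtain ⟨t⟩ := hT
    obtain ⟨w, hw, -, -, h1⟩ := hF b t
    rw [h1]
    exact mul_ne_zero hw (prod_ne M t _)
  refine ⟨?_, fun D hD => der_lau (E := E) hz0 hD, ?_, T', I', i1, i2, Classical.decEq _, M',
    Sum.elim γ δ, B, b, ?_, h4, hB⟩
  · rintro (b | i)
    · refine ⟨em_lau z _, ?_⟩
      change (algebraMap E K (h b))⁻¹ ∈ _
      rw [← map_inv₀]
      exact em_lau z _
    · exact ⟨z_lau z i, zi_lau z i⟩
  · rintro D hD (b | i)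
    · refine ⟨0, ?_⟩
      rw [zero_smul]
      exact hD.1 _
    · exact hD.2 i
  · rintro (b | i) t
    · exact hγ b t
    · exact hδ i t

end Pool.Agent.W417.Tor
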